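import Pool.Agent.H669Z.Gam.Main

open Pool.Agent.H669Z.Gam Pool.Agent.H669Z.Hech

/-- Q2. (1) Some forcing notion forces `NotDom O` and `Wit O I`. (2) These two statements give a
set `A` of infinite sets, of size below the dominating number, and a γ-set `Y` of reals such that
the product of `A` and `Y` fails the selection principle. -/
theorem Pool.Agent.Results.MP_820b44_gt.AGammaProduct.result :
    (∃ (P : Type) (_ : Preorder P) (O I : Type), Nonempty P ∧
      ∀ p : P, p ∈ FNotDom P O ∧ p ∈ FWit P O I) ∧
    ∀ O I : Type, NotDom O → Wit O I →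
      ∃ A Y : Set (ℕ → Bool), (∀ a ∈ A, {n | a n = true}.Infinite) ∧
        Cardinal.mk A < dominatingNumber ∧ GammaProperty Y ∧ ¬ S1GammaO (A × Y) :=
  ⟨exists_forcing, ground⟩
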